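import Mathlib
import Pool.Agent.H.MP_569b71_an.B

namespace Pool.Agent.Results.MP_569b71_an.Yes

open MeasureTheory ProbabilityTheory Set Module Matrix Pool.Agent.H.MP_467638_an
  Pool.Agent.H.MP_569b71_an
open scoped ENNReal InnerProductSpace

/-- the product sigma-algebra on matrices -/
instance mms {K : Type} [MeasurableSpace K] {m n : ℕ} :
    MeasurableSpace (Matrix (Fin m) (Fin n) K) := MeasurableSpace.pi

/-- squared Frobenius norm -/
noncomputable def frob2 {K : Type} [RCLike K] {m n : ℕ} (M : Matrix (Fin m) (Fin n) K) : ℝ :=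
  ∑ i, ∑ j, ‖M i j‖ ^ 2

/-- squared error of a best approximation of rank at most q -/
noncomputable def tail {K : Type} [RCLike K] {d n : ℕ} (q : ℕ) (A : Matrix (Fin d) (Fin n) K) :
    ℝ :=
  ⨅ B : {B : Matrix (Fin d) (Fin n) K // B.rank ≤ q}, frob2 (A - B.1)

/-- the lower bound over the field K with constant α -/
def Stmt (K : Type) [RCLike K] [MeasurableSpace K] (α : ℕ) : Prop :=
  ∀ (n l d q r : ℕ), 1 ≤ q → l ≤ r → q + α < l → r ≤ d → r ≤ n →
    ∀ (P : Measure (Matrix (Fin n) (Fin l) K)), IsProbabilityMeasure P → (∀ᵐ Ω ∂P, Ω.rank = l) →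
    ∀ ALG : Matrix (Fin n) (Fin l) K × Matrix (Fin d) (Fin l) K × Matrix (Fin n) (Fin l) K →
      Matrix (Fin d) (Fin n) K, Measurable ALG →
    ENNReal.ofReal (((r : ℝ) - l) / (r - q) * (1 + q / (l - q - α))) ≤
      ⨆ (A : Matrix (Fin d) (Fin n) K) (_ : A.rank = r),
        (∫⁻ Ω, ENNReal.ofReal (frob2 (A - ALG (Ω, A * Ω, Aᴴ * A * Ω))) ∂P) /
          ENNReal.ofReal (tail q A)

instance mbs {K : Type} [RCLike K] [MeasurableSpace K] [BorelSpace K] {m n : ℕ} :
    BorelSpace (Matrix (Fin m) (Fin n) K) := Pi.borelSpace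

instance msc {K : Type} [RCLike K] {m n : ℕ} :
    SecondCountableTopology (Matrix (Fin m) (Fin n) K) :=
  inferInstanceAs (SecondCountableTopology (Fin m → Fin n → K))

lemma main (K : Type) [RCLike K] [MeasurableSpace K] [BorelSpace K] (α : ℕ)
    (hβ : finrank ℝ K = 1 ∧ α = 1 ∨ finrank ℝ K = 2 ∧ α = 0) : Stmt K α := by
  intro n l d q r _ hl hq hd hn P _ _ ALG hA
  generalize hM : @iSup ℝ≥0∞ (Matrix (Fin d) (Fin n) K) _ _ = M
  by_cases M0 : M = ⊤
  · exact M0 ▸ le_top
  obtain ⟨ρ, _, _⟩ := haar (𝕜 := K) (r := r)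
  obtain ⟨v1, -, h1⟩ := ex_fam (⊤ : Submodule K (V K d)) (k := r) (by simpa)
  obtain ⟨v2, -, h2⟩ := ex_fam (⊤ : Submodule K (V K n)) (k := r) (by simpa)
  obtain ⟨v3, -, h3⟩ := ex_fam (⊤ : Submodule K (V K r)) (k := q) (by simp; omega)
  obtain ⟨J, -, -, -, -⟩ := emb _ h1
  obtain ⟨J', L, h4, -, -⟩ := emb _ h2
  generalize Submodule.span K (range v3) = S at h3
  have e := S.finrank_add_finrank_orthogonal
  rw [h3, finrank_euclideanSpace_fin] at e
  have cF : Continuous (frob2 : Matrix (Fin d) (Fin n) K → ℝ) := by unfold frob2; fun_prop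
  have a : ∀ t : ℕ, ∫⁻ u, Ψ S t u ∂(Measure.pi fun _ : Fin (r - l) => stdGaussian (V K r)) ≤
      M * (r - q : ℕ) := fun t => by
    have t0 : (t + 1 : K) ≠ 0 := by exact_mod_cast t.succ_ne_zero
    let A : G K r × G K r → Matrix (Fin d) (Fin n) K := fun z =>
      mc fun j => J (z.2.1 (D S (t + 1) (z.1.1 (L (EuclideanSpace.single j 1)))))
    have c1 : Continuous A := continuous_matrix fun i j => by
      simp only [A, mc, of_apply]; fun_prop
    have m : Measurable fun z : Matrix (Fin n) (Fin l) K × G K r × G K r => ENNReal.ofReal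
        (frob2 (A z.2 - ALG (z.1, A z.2 * z.1, (A z.2)ᴴ * A z.2 * z.1))) := by
      have m1 := hA.comp (Continuous.measurable (f := fun z : Matrix (Fin n) (Fin l) K × G K r ×
        G K r => (z.1, A z.2 * z.1, (A z.2)ᴴ * A z.2 * z.1)) (by fun_prop))
      exact ((cF.comp (f := fun z : (G K r × G K r) × Matrix (Fin d) (Fin n) K =>
        A z.1 - z.2) (by fun_prop)).measurable.comp (measurable_snd.prodMk m1)).ennreal_ofReal
    refine le_trans (le_lint (ae_of_all _ fun Ω => ?_)) ((lintegral_lintegral_swap (μ := P)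
      (ν := ρ.prod ρ) (f := fun Ω z => ENNReal.ofReal (frob2 (A z - ALG (Ω, A z * Ω,
        (A z)ᴴ * A z * Ω)))) m.aemeasurable).le.trans (lint_le (ae_of_all _ fun z => ?_)))
    · obtain ⟨c, rfl⟩ : ∃ c, Ω = mc c := ⟨fun j => WithLp.toLp 2 fun i => Ω i j, rfl⟩
      have e1 := (Submodule.span K (range fun k => L (c k))).finrank_add_finrank_orthogonal
      have e2 := finrank_range_le_card (R := K) fun k => L (c k)
      rw [Set.finrank, Fintype.card_fin] at e2
      rw [finrank_euclideanSpace_fin] at e1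
      obtain ⟨v, hv, hv'⟩ := ex_fam (Submodule.span K (range fun k => L (c k)))ᗮ (k := r - l)
        (by omega)
      rw [lintegral_prod _ (by exact (m.comp measurable_prodMk_left).aemeasurable)]
      refine (gh ρ S t hv').trans (lintegral_mono fun W => (proj_ge S t _).trans ?_)
      set S' := Submodule.span K (range fun j => D S (t + 1 : K)⁻¹ (W.1 (v j)))
      have := hs2 (S'.starProjection.comp (D S (t + 1))) W J' L h4
      simp only [ContinuousLinearMap.comp_apply] at this
      simp only [en2]
      rw [← ENNReal.ofReal_sum_of_nonneg fun _ _ => sq_nonneg _, ← this,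
        ENNReal.ofReal_sum_of_nonneg fun _ _ => sq_nonneg _]
      simp only [← en2]
      have m' := m.comp (f := fun U : G K r => (mc c, W, U)) (by fun_prop)
      refine refl ρ J (fun j => D S (t + 1) (W.1 (L (EuclideanSpace.single j 1)))) S'
        (fun U => ALG (mc c, A (W, U) * mc c, (A (W, U))ᴴ * A (W, U) * mc c)) (fun U => ?_) m'
      have f : ∀ U : G K r, A (W, U) * mc c = mc fun k => J (U.1 (D S (t + 1) (W.1 (L (c k))))) :=
        fun U => mc_mul (J.toContinuousLinearMap.comp (U.1.comp ((D S (t + 1)).comp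
          (W.1.comp L)))) c
      simp only [f]
      simp only [A, H.MP_569b71_an.gram, J.inner_map_map, Unitary.inner_map_map]
      congr 4
      · ext1 k
        refine congrArg (fun x => J (U.1 x)) (Submodule.reflection_mem_subspace_eq_self ?_)
        refine (Submodule.mem_orthogonal _ _).2 fun x hx => ?_
        induction hx using Submodule.span_induction with
        | mem x hx =>
          obtain ⟨j, rfl⟩ := hx
          rw [D_inv, Unitary.inner_map_map, inner_eq_zero_symm]
          exact hv j _ (Submodule.subset_span (mem_range_self k))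
        | zero => simp
        | add x y _ _ hx hy => rw [inner_add_left, hx, hy, add_zero]
        | smul a x _ hx => rw [inner_smul_left, hx, mul_zero]
    · have LJ : ∀ y, L (J' y) = y := fun y => ext_inner_right K fun x => by
        rw [h4, J'.inner_map_map]
      have rk : ∀ Φ : V K r →L[K] V K d, (mc fun j => Φ (L (EuclideanSpace.single j 1))).rank =
          finrank K (LinearMap.range Φ.toLinearMap) := fun Φ => by
        refine (rank_mc _).trans (congrArg (fun W : Submodule K (V K d) => finrank K W)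
          (le_antisymm (Submodule.span_le.2 (range_subset_iff.2 fun j => ⟨_, rfl⟩)) ?_))
        rintro _ ⟨y, rfl⟩
        rw [ContinuousLinearMap.coe_coe, ← LJ y, ← T_single (J' y), map_T, map_T, T_ap]
        exact Submodule.sum_mem _ fun i _ =>
          Submodule.smul_mem _ _ (Submodule.subset_span (mem_range_self i))
      have r1 : (A z).rank = r := by
        refine (rk (J.toContinuousLinearMap.comp (z.2.1.comp ((D S (t + 1)).comp z.1.1)))).trans
          ((LinearMap.finrank_range_of_inj ((injective_iff_map_eq_zero _).2 fun x hx => ?_)).trans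
            finrank_euclideanSpace_fin)
        have hx : J (z.2.1 (D S (t + 1) (z.1.1 x))) = 0 := hx
        rw [← norm_eq_zero, J.norm_map, Unitary.norm_map, norm_eq_zero] at hx
        rw [← inner_self_eq_zero (𝕜 := K), ← Unitary.inner_map_map z.1, ← D_inv S t, hx,
          inner_zero_right]
      have r2 : ENNReal.ofReal (tail q (A z)) ≤ (r - q : ℕ) := by
        obtain ⟨J1, L1, -, g1, -⟩ := emb S h3
        obtain ⟨J2, L2, g2, g3, -⟩ := emb Sᗮ (k := r - q) (by omega)
        rw [← ENNReal.ofReal_natCast]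
        refine ENNReal.ofReal_le_ofReal ((ciInf_le ⟨0, ?_⟩ ⟨_, (rk (J.toContinuousLinearMap.comp
          (z.2.1.comp (((t + 1 : K) • J1.toContinuousLinearMap).comp (L1.comp z.1.1))))).trans_le
          ?_⟩).trans_eq ?_)
        · rintro _ ⟨X, rfl⟩; exact Finset.sum_nonneg fun _ _ => by positivity
        · have b := hs (EuclideanSpace.basisFun (Fin r) K)
            (EuclideanSpace.basisFun (Fin (r - q)) K) g2
          simp only [EuclideanSpace.basisFun_apply, J2.norm_map, PiLp.norm_single, norm_one,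
            one_pow, Finset.sum_const, Finset.card_fin, nsmul_eq_mul, mul_one] at b
          rw [← b, ← hs2 L2 z.1 J' L h4]
          refine (frob_c _ _).trans (Finset.sum_congr rfl fun j _ => ?_)
          simp only [ContinuousLinearMap.comp_apply, LinearIsometry.coe_toContinuousLinearMap,
            _root_.smul_apply, g1, ← map_sub, J.norm_map, Unitary.norm_map, D, _root_.add_apply,
            add_sub_cancel_left]
          rw [← g3, J2.norm_map]
        · rw [← ContinuousLinearMap.comp_assoc, ← ContinuousLinearMap.comp_assoc]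
          exact (Submodule.finrank_mono (LinearMap.range_comp_le_range (L1.comp z.1.1).toLinearMap
            (ContinuousLinearMap.toLinearMap _))).trans
            ((LinearMap.finrank_range_le _).trans finrank_euclideanSpace_fin.le)
      refine le_trans ((ENNReal.div_le_iff_le_mul (Or.inr M0) (Or.inl ENNReal.ofReal_ne_top)).1
        ?_) (mul_le_mul' le_rfl r2)
      rw [← hM]
      exact le_iSup₂_of_le (A z) r1 le_rfl
  have k2 : 2 < finrank ℝ K * (l - q + 1) := by rcases hβ with ⟨q, _⟩ | ⟨q, _⟩ <;> rw [q] <;> omega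
  have c := (Ψ_int (m := r - l) (s := r - q) (k := l - q + 1) h3 (by omega) (by omega) k2).trans
    ((lintegral_iSup (fun t => Ψ_meas S t) fun s t q u => Ψ_mono S u q).le.trans (iSup_le a))
  obtain ⟨x, rfl⟩ := Nat.exists_eq_add_of_lt hq
  obtain ⟨y, rfl⟩ := Nat.exists_eq_add_of_le hl
  have b0 : (0 : ℝ) < finrank ℝ K := by exact_mod_cast finrank_pos
  lift M to NNReal using M0
  rw [show q + α + x + 1 - q = α + x + 1 by omega, show q + α + x + 1 + y - q = α + x + 1 + y by
    omega, Nat.add_sub_cancel_left] at c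
  have d := ENNReal.toReal_mono (by finiteness) c
  rw [ENNReal.toReal_add (by finiteness) (by finiteness)] at d
  have z : (finrank ℝ K : ℝ) * ((α + x + 1 + 1 : ℕ) : ℝ) - 2 = finrank ℝ K * (x + 1) := by
    rcases hβ with ⟨q, rfl⟩ | ⟨q, rfl⟩ <;> rw [q] <;> push_cast <;> ring
  simp only [ENNReal.toReal_mul, ENNReal.toReal_natCast, ENNReal.coe_toReal, z,
    ENNReal.toReal_ofReal (show (0 : ℝ) ≤ 1 / (finrank ℝ K * (x + 1)) by positivity)] at d
  refine ENNReal.ofReal_le_coe.2 (le_of_mul_le_mul_right (le_of_eq_of_le ?_ d) (by positivity))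
  push_cast
  rw [show (q : ℝ) + α + x + 1 + y - q = α + x + 1 + y by ring,
    show (q : ℝ) + α + x + 1 - q - α = x + 1 by ring]
  field_simp
  ring

theorem result : Stmt ℝ 1 ∧ Stmt ℂ 0 :=
  ⟨main ℝ 1 (Or.inl ⟨finrank_self ℝ, rfl⟩), main ℂ 0 (Or.inr ⟨Complex.finrank_real_complex, rfl⟩)⟩

end Pool.Agent.Results.MP_569b71_an.Yes
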